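import Pool.Agent.helper7.PQ.Spec

set_option autoImplicit false

/-!
# Project pq (MP_ebc808_nt), row CNL: many pairs give many numbers
-/

open Finset PowerSeries

noncomputable section

namespace Pool.Agent.PQ

open Pool.Agent.EP

theorem CNL_log (A : ℝ) (hA : 0 < A) : ∃ N : ℕ, ∀ y : ℕ, N ≤ y →
    Real.log y ^ 2 ≤ A * √(y : ℝ) := by
  have h1 := isLittleO_log_rpow_rpow_atTop (2 : ℝ) (show (0 : ℝ) < 1 / 2 by norm_num)
  have h2 := h1.bound hA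
  rw [Filter.eventually_atTop] at h2
  obtain ⟨a, ha⟩ := h2
  obtain ⟨N, hN⟩ := exists_nat_ge (max a 1)
  refine ⟨N, fun y hy => ?_⟩
  have h3 : (N : ℝ) ≤ y := by exact_mod_cast hy
  have h4 := ha y ((le_max_left a 1).trans (hN.trans h3))
  rw [Real.rpow_ofNat, ← Real.sqrt_eq_rpow, Real.norm_of_nonneg (sq_nonneg _),
    Real.norm_of_nonneg (Real.sqrt_nonneg _)] at h4
  exact h4

theorem CNL (hFBP : FBP_stmt) (hEXC : EXC_stmt) : CNL_stmt := by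
  classical
  intro B Q₁ Q₂ c hB hQ₁ hQ₂ hc
  obtain ⟨C₁, y₀, hC₁, h1⟩ := hFBP B Q₁ Q₂ hB hQ₁ hQ₂
  obtain ⟨C₂, y₂, hC₂, h2⟩ := hEXC B Q₁ Q₂ hB hQ₁ hQ₂
  obtain ⟨N, hN⟩ := CNL_log (c / (2 * C₂)) (by positivity)
  refine ⟨c / (2 * C₁), max (max y₀ y₂) (max N 2), by positivity, ?_⟩
  intro y hy T S hT hTp hTS hTc
  have hy0 : y₀ ≤ y := (le_max_left _ _).trans ((le_max_left _ _).trans hy)
  have hy2 : y₂ ≤ y := (le_max_right _ _).trans ((le_max_left _ _).trans hy)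
  have hyN : N ≤ y := (le_max_left _ _).trans ((le_max_right _ _).trans hy)
  have hy2' : 2 ≤ y := (le_max_right _ _).trans ((le_max_right _ _).trans hy)
  have hyr : (2 : ℝ) ≤ y := by exact_mod_cast hy2'
  have hypos : (0 : ℝ) < y := by linarith
  have hlog : 0 < Real.log y := Real.log_pos (by linarith)
  have hsq : 0 < √(y : ℝ) := Real.sqrt_pos.2 hypos
  -- the exceptional pairs
  have hE : ((T.filter fun x => ExcP B Q₁ Q₂ x.1 x.2).card : ℝ) ≤ C₂ * y * √(y : ℝ) := by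
    refine le_trans ?_ (h2 y hy2)
    have h3 : (T.filter fun x => ExcP B Q₁ Q₂ x.1 x.2) ⊆
        {x ∈ Ioc y (2 * y) ×ˢ Ioc y (2 * y) | x.1.Prime ∧ x.2.Prime ∧ ExcP B Q₁ Q₂ x.1 x.2} := by
      intro x hx
      rw [mem_filter] at hx ⊢
      exact ⟨hT hx.1, (hTp x hx.1).1, (hTp x hx.1).2, hx.2⟩
    exact_mod_cast card_le_card h3
  -- the other pairs
  have hR : ((T.filter fun x => ¬ ExcP B Q₁ Q₂ x.1 x.2).card : ℝ) ≤ (S.card : ℝ) * (C₁ * √(y : ℝ)) := by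
    have h3 : (T.filter fun x => ¬ ExcP B Q₁ Q₂ x.1 x.2) ⊆ S.biUnion fun n =>
        {x ∈ Ioc y (2 * y) ×ˢ Ioc y (2 * y) | x.1.Prime ∧ x.2.Prime ∧ RelP B Q₁ Q₂ x.1 x.2 n} := by
      intro x hx
      rw [mem_filter] at hx
      obtain ⟨n, hn, hr⟩ := hTS x hx.1 hx.2
      rw [mem_biUnion]
      refine ⟨n, hn, ?_⟩
      rw [mem_filter]
      exact ⟨hT hx.1, (hTp x hx.1).1, (hTp x hx.1).2, hr⟩
    have h4 := (card_le_card h3).trans card_biUnion_le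
    have h5 : ((T.filter fun x => ¬ ExcP B Q₁ Q₂ x.1 x.2).card : ℝ) ≤ ∑ n ∈ S,
        (#{x ∈ Ioc y (2 * y) ×ˢ Ioc y (2 * y) | x.1.Prime ∧ x.2.Prime ∧
          RelP B Q₁ Q₂ x.1 x.2 n} : ℝ) := by
      exact_mod_cast h4
    refine h5.trans ?_
    rw [← nsmul_eq_mul]
    exact sum_le_card_nsmul S _ _ fun n _ => h1 y hy0 n
  have hsum : (T.card : ℝ) = ((T.filter fun x => ExcP B Q₁ Q₂ x.1 x.2).card : ℝ) +
      ((T.filter fun x => ¬ ExcP B Q₁ Q₂ x.1 x.2).card : ℝ) := by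
    exact_mod_cast (card_filter_add_card_filter_not (s := T) (fun x => ExcP B Q₁ Q₂ x.1 x.2)).symm
  have hl := hN y hyN
  have hss : √(y : ℝ) * √(y : ℝ) = y := Real.mul_self_sqrt hypos.le
  have hlog2 : 0 < Real.log y ^ 2 := by positivity
  -- the exceptional pairs are few
  have hE2 : C₂ * y * √(y : ℝ) ≤ c / 2 * (y : ℝ) ^ 2 / Real.log y ^ 2 := by
    rw [le_div_iff₀ hlog2]
    calc C₂ * y * √(y : ℝ) * Real.log y ^ 2 ≤ C₂ * y * √(y : ℝ) * (c / (2 * C₂) * √(y : ℝ)) :=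
          mul_le_mul_of_nonneg_left hl (by positivity)
      _ = c / 2 * y * (√(y : ℝ) * √(y : ℝ)) := by
          field_simp
      _ = c / 2 * (y : ℝ) ^ 2 := by
          rw [hss]
          ring
  have hmain : c / 2 * (y : ℝ) ^ 2 / Real.log y ^ 2 ≤ (S.card : ℝ) * (C₁ * √(y : ℝ)) := by
    have h3 : c * (y : ℝ) ^ 2 / Real.log y ^ 2 = c / 2 * (y : ℝ) ^ 2 / Real.log y ^ 2 +
        c / 2 * (y : ℝ) ^ 2 / Real.log y ^ 2 := by ring
    linarith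
  have h32 : (y : ℝ) ^ (3 / 2 : ℝ) * √(y : ℝ) = (y : ℝ) ^ 2 := by
    rw [Real.sqrt_eq_rpow, ← Real.rpow_add hypos]
    norm_num
  have hfin : c / (2 * C₁) * (y : ℝ) ^ (3 / 2 : ℝ) / Real.log y ^ 2 * (C₁ * √(y : ℝ)) ≤
      (S.card : ℝ) * (C₁ * √(y : ℝ)) := by
    refine le_trans (le_of_eq ?_) hmain
    rw [← h32]
    field_simp
  exact le_of_mul_le_mul_right hfin (by positivity)

end Pool.Agent.PQ
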